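import Pool.Agent.Helper74.DI.St

/-! Project DI (MP_26f0da_lc), module AVR. -/

set_option autoImplicit false

namespace Pool.Agent.Helper2.DI

open Pool.Agent.Helper74 Pool.Agent.Helper74.DI

theorem run_off (t s : Bool) (k : ℕ) (v : ℤ × ℤ) :
    run (List.replicate k (.op t s)) (false, v) = (false, v) := by
  induction k with
  | zero => rfl
  | succ k ih =>
    rw [List.replicate_succ, run_cons]
    cases t <;> cases s <;> exact ih

theorem run_tf (k : ℕ) (p q : ℤ) :
    run (List.replicate k (.op true false)) (true, p, q) = (true, p - k * q, q) := by
  induction k generalizing p with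
  | zero => simp [run_nil]
  | succ k ih =>
    rw [List.replicate_succ, run_cons]
    show run _ (true, p - q, q) = _
    rw [ih]
    simp only [Prod.mk.injEq, true_and, and_true]
    push_cast
    ring

theorem run_tt (k : ℕ) (p q : ℤ) :
    run (List.replicate k (.op true true)) (true, p, q) = (true, p + k * q, q) := by
  induction k generalizing p with
  | zero => simp [run_nil]
  | succ k ih =>
    rw [List.replicate_succ, run_cons]
    show run _ (true, p + q, q) = _
    rw [ih]
    simp only [Prod.mk.injEq, true_and, and_true]
    push_cast
    ring

theorem run_f (s : Bool) (k : ℕ) (p q : ℤ) :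
    run (List.replicate k (.op false s)) (true, p, q) =
      (true, p, q + (if s then (k : ℤ) else -k) * p) := by
  induction k generalizing q with
  | zero => simp [run_nil]
  | succ k ih =>
    rw [List.replicate_succ, run_cons]
    cases s
    · show run _ (true, p, q - p) = _
      rw [ih]
      simp only [Prod.mk.injEq, true_and]
      push_cast
      simp
      ring
    · show run _ (true, p, q + p) = _
      rw [ih]
      simp only [Prod.mk.injEq, true_and, if_true]
      push_cast
      ring

theorem hAVR : StAVR := by
  intro a v
  obtain ⟨g, s⟩ := a
  obtain ⟨p, q⟩ := v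
  constructor
  · rw [ow, run_append, run_append, run_tf, run_f, run_tt, Av]
    push_cast
    rfl
  · rw [ow, run_append, run_append, run_off, run_off, run_off]

end Pool.Agent.Helper2.DI
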