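import Pool.Agent.Helper74.DI.St

/-! Project DI (MP_26f0da_lc), module E1L. -/

set_option autoImplicit false

namespace Pool.Agent.Helper2.DI

open Pool.Agent.Helper74 Pool.Agent.Helper74.DI
open Pool.Agent.Helper74.NM (NC)
open Pool.Agent.Helper74.WB (iv)

theorem hE1L (hE1K : StE1K) (hPAR : StPAR) : StE1L := by
  intro n R hsym h3
  obtain ⟨r, r', hr⟩ := hE1K n R h3
  refine ⟨fun x => (r x, true), fun x => (r' x, false), fun w => ?_⟩
  refine hPAR (Fin n) (ℕ × Bool) R Sc (fun x => (r x, true)) (fun x => (r' x, false))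
    (fun x => ∃ y, R x y) ?_ ?_ ?_ w
  · intro x y h
    exact ⟨⟨y, h⟩, ⟨x, hsym x y h⟩⟩
  · rintro x y hx ⟨z, hz⟩
    rw [hr x y hx ⟨z, hsym y z hz⟩]
    simp only [Sc, iv, Prod.mk.injEq, Bool.not_true, and_true]
    exact eq_comm
  · rintro x y ⟨z, hz⟩ hy
    have h1 : R x y ↔ R y x := ⟨hsym x y, hsym y x⟩
    rw [h1, hr y x hy ⟨z, hsym x z hz⟩]
    simp only [Sc, iv, Prod.mk.injEq, Bool.not_false, and_true]

end Pool.Agent.Helper2.DI
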